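import Pool.Agent.Helper76.TG.StG

/-!
# Project T3K, module F1T: level `p`, the case `(-1)^a = -η`
-/

set_option autoImplicit false

namespace Pool.Agent.Helper9.TG

open Pool.Agent.Helper76.TG Pool.Agent.Helper28.WK Pool.Agent.Helper28.LV Pool.Agent.Helper14.CV

private theorem u_ne {p : ℕ} (hp : (p : ℤ) ≠ 0) {x y : ℤ} (h : x ≠ 0 ∨ y ≠ 0) :
    x ≠ 0 ∨ (p : ℤ) * y ≠ 0 := by
  rcases h with h | h
  · exact Or.inl h
  · exact Or.inr (mul_ne_zero hp h)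

private theorem u_ne' {p : ℕ} (hp : (p : ℤ) ≠ 0) {x y : ℤ} (h : x ≠ 0 ∨ y ≠ 0) :
    (p : ℤ) * x ≠ 0 ∨ y ≠ 0 := by
  rcases h with h | h
  · exact Or.inl (mul_ne_zero hp h)
  · exact Or.inr h

/-- Step (0). -/
private theorem nc_all {p : ℕ} [Fact p.Prime] (hp : (p : ℤ) ≠ 0) (a : ℕ) (ψ : ℤ → ℤ → ℤ_[p])
    (hψ : Homog ψ)
    (hNc : ∀ c : ℤ, (p : ℤ) ∣ c → EqC (Nc a c (act p 0 0 1 ψ)) 0) (c : ℤ) : EqC (Nc a c ψ) 0 := by
  obtain ⟨k, hk⟩ := hNc (p * c) (dvd_mul_right _ _)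
  refine ⟨k, fun x y hxy => ?_⟩
  have h1 : Nc a (p * c) (act p 0 0 1 ψ) x (p * y) = 0 + k := hk x (p * y) (u_ne hp hxy)
  change Nc a c ψ x y = 0 + k
  rw [← h1]
  simp only [Nc, act]
  refine Finset.sum_congr rfl fun j _ => ?_
  congr 1
  have h2 : x ≠ 0 ∨ (j : ℤ) * c * x + y ≠ 0 := by
    by_cases hx : x = 0
    · right
      rw [hx, mul_zero, zero_add]
      rcases hxy with h | h
      · exact absurd hx h
      · exact h
    · exact Or.inl hx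
  rw [← hψ p x ((j : ℤ) * c * x + y) hp h2]
  congr 1 <;> ring

/-- Step (1). -/
private theorem s_inv {p : ℕ} [Fact p.Prime] (hp : (p : ℤ) ≠ 0) (η : ℤ) (ψ : ℤ → ℤ → ℤ_[p])
    (hψ : Homog ψ) (hS : EqC (act 0 (-1) (p : ℤ) 0 ψ) (η • act p 0 0 1 ψ)) :
    ∃ k : ℤ_[p], ∀ x y : ℤ, (x ≠ 0 ∨ y ≠ 0) → ψ (-y) x = (η : ℤ_[p]) * ψ x y + k := by
  obtain ⟨k, hk⟩ := hS
  refine ⟨k, fun x y hxy => ?_⟩
  have h1 := hk x (p * y) (u_ne hp hxy)
  have e1 : act 0 (-1) (p : ℤ) 0 ψ x (p * y) = ψ (-y) x := by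
    have h3 : -y ≠ 0 ∨ x ≠ 0 := by
      rcases hxy with h | h
      · exact Or.inr h
      · exact Or.inl (neg_ne_zero.mpr h)
    rw [← hψ p (-y) x hp h3]
    simp only [act]
    congr 1 <;> ring
  have e2 : act p 0 0 1 ψ x (p * y) = ψ x y := by
    rw [← hψ p x y hp hxy]
    simp only [act]
    congr 1 <;> ring
  simp only [Pi.smul_apply, zsmul_eq_mul] at h1
  rw [e1, e2] at h1
  exact h1

theorem hF1T : StF1T := by
  intro hMS hT hU hE p hpf c η a Φ ψ hc1 hη ha heqv hψ hsym hu hNb hNc hS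
  have hp0 : (p : ℤ) ≠ 0 := by exact_mod_cast hpf.out.ne_zero
  have hpQ : (p : ℚ_[p]) ≠ 0 := by exact_mod_cast hpf.out.ne_zero
  have hNc' := nc_all hp0 a ψ hψ hNc
  obtain ⟨k, hk⟩ := s_inv hp0 η ψ hψ hS
  have hηη : ((η : ℤ) : ℚ_[p]) * ((η : ℤ) : ℚ_[p]) = 1 := by
    rcases hη with h | h <;> rw [h] <;> norm_num
  have ha' : ((-1 : ℚ_[p])) ^ a = -((η : ℤ) : ℚ_[p]) := by exact_mod_cast ha
  obtain ⟨k', hk'⟩ := hu
  have hsym' : ∀ M : ℕ, 3 ≤ M → SymP p M (M + 1) (redP M ψ) := by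
    intro M hM
    obtain ⟨g1, g2⟩ := hsym M hM
    refine ⟨g1, fun α β γ δ hd hb hc => g2 α β γ δ hd hb (dvd_trans ?_ hc)⟩
    exact pow_dvd_pow _ (Nat.le_succ M)
  obtain ⟨F, hF⟩ := hMS p hpf a ψ hψ hsym' hNb hNc'
  obtain ⟨E1, E2, E3, E4⟩ := hE p hpf a Φ
  -- step (2)
  have step2 : ∀ v1 v2 w1 w2 : ℤ, (v1 ≠ 0 ∨ v2 ≠ 0) → (w1 ≠ 0 ∨ w2 ≠ 0) →
      ∀ α β γ δ : ℚ_[p], F v1 v2 w1 w2 (-γ) (-δ) α β =
        ((η : ℤ) : ℚ_[p]) * F v1 v2 w1 w2 α β γ δ := by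
    intro v1 v2 w1 w2 hv hw
    obtain ⟨r1, r2⟩ := hF v1 v2 w1 w2 hv hw
    obtain ⟨_, _, t3, _⟩ := hT p hpf a _ r1
    obtain ⟨_, _, _, t4', _⟩ := hT p hpf a _ t3
    have hR := t4' _ 1 (-((η : ℤ) : ℚ_[p])) r1
    have hz := hU p hpf a 0 _ hR (by
      intro α β γ δ hd _ _ _ _
      have hgw := ne_zero_of_det (by rw [hd]; exact one_ne_zero : α * δ - β * γ ≠ 0) hw
      have hgv := ne_zero_of_det (by rw [hd]; exact one_ne_zero : α * δ - β * γ ≠ 0) hv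
      have q1 := r2 α β γ δ hd
      have q2 := r2 (-γ) (-δ) α β (by linear_combination hd)
      have q3 := hk _ _ hgw
      have q4 := hk _ _ hgv
      have m1 : ψ (-γ * w1 + -δ * w2) (α * w1 + β * w2) - ψ (-γ * v1 + -δ * v2) (α * v1 + β * v2) =
          (η : ℤ_[p]) * (ψ (α * w1 + β * w2) (γ * w1 + δ * w2) -
            ψ (α * v1 + β * v2) (γ * v1 + δ * v2)) := by
        have n1 : -γ * w1 + -δ * w2 = -(γ * w1 + δ * w2) := by ring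
        have n2 : -γ * v1 + -δ * v2 = -(γ * v1 + δ * v2) := by ring
        rw [n1, n2, q3, q4]
        ring
      rw [m1, PadicInt.coe_mul, q1, PadicInt.coe_intCast] at q2
      push_cast at q2
      rw [← q2]
      ring)
    intro α β γ δ
    have := hz α β γ δ
    linear_combination this
  -- step (3)
  have step3 : ∀ v1 v2 w1 w2 : ℤ, (v1 ≠ 0 ∨ v2 ≠ 0) → (w1 ≠ 0 ∨ w2 ≠ 0) →
      ∀ α β γ δ : ℚ_[p], 4 * EGf a Φ v1 v2 w1 w2 α β γ δ =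
        ((c : ℤ) : ℚ_[p]) * F (p * v1) v2 (p * w1) w2 α (p * β) ((p : ℚ_[p])⁻¹ * γ) δ -
          F v1 v2 w1 w2 α β γ δ := by
    intro v1 v2 w1 w2 hv hw
    obtain ⟨r1, r2⟩ := hF v1 v2 w1 w2 hv hw
    obtain ⟨s1, s2⟩ := hF (p * v1) v2 (p * w1) w2 (u_ne' hp0 hv) (u_ne' hp0 hw)
    obtain ⟨_, t2, _, _, _⟩ := hT p hpf a _ s1
    have t2' := t2 (p : ℚ_[p]) ((p : ℚ_[p])⁻¹)
    obtain ⟨_, _, _, t4, _⟩ := hT p hpf a _ t2'
    have t4' := t4 _ ((c : ℤ) : ℚ_[p]) (-1) r1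
    obtain ⟨_, _, _, t5, _⟩ := hT p hpf a _ (E1 v1 v2 w1 w2)
    have hR := t5 _ 4 (-1) t4'
    have hz := hU p hpf a 1 _ hR (by
      intro α β γ δ hd _ _ hc _
      rw [pow_one] at hc
      obtain ⟨γ', hγ⟩ := hc
      have hgw := ne_zero_of_det (by rw [hd]; exact one_ne_zero : α * δ - β * γ ≠ 0) hw
      have hgv := ne_zero_of_det (by rw [hd]; exact one_ne_zero : α * δ - β * γ ≠ 0) hv
      have q1 := r2 α β γ δ hd
      have q2 := s2 α (p * β) γ' δ (by rw [← hd, hγ]; ring)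
      have q3 := hk' _ _ hgw
      have q4 := hk' _ _ hgv
      have q5 := E4 v1 v2 w1 w2 α β γ δ hv hw (heqv α β γ δ hd ⟨γ', hγ⟩)
      simp only [Pi.sub_apply, Pi.smul_apply] at q3 q4
      simp only [act, cp, zsmul_eq_mul] at q3 q4
      have m1 : ψ (α * (p * w1) + p * β * w2) (γ' * (p * w1) + δ * w2) =
          ψ (p * (α * w1 + β * w2) + 0 * (γ * w1 + δ * w2))
            (0 * (α * w1 + β * w2) + 1 * (γ * w1 + δ * w2)) := by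
        rw [hγ]
        congr 1 <;> ring
      have m2 : ψ (α * (p * v1) + p * β * v2) (γ' * (p * v1) + δ * v2) =
          ψ (p * (α * v1 + β * v2) + 0 * (γ * v1 + δ * v2))
            (0 * (α * v1 + β * v2) + 1 * (γ * v1 + δ * v2)) := by
        rw [hγ]
        congr 1 <;> ring
      have hγ2 : (p : ℚ_[p])⁻¹ * ((γ : ℤ) : ℚ_[p]) = ((γ' : ℤ) : ℚ_[p]) := by
        rw [hγ]
        push_cast
        rw [← mul_assoc, inv_mul_cancel₀ hpQ, one_mul]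
      have m3 : (c : ℤ_[p]) * (ψ (α * (p * w1) + p * β * w2) (γ' * (p * w1) + δ * w2) -
          ψ (α * (p * v1) + p * β * v2) (γ' * (p * v1) + δ * v2)) -
          (ψ (α * w1 + β * w2) (γ * w1 + δ * w2) - ψ (α * v1 + β * v2) (γ * v1 + δ * v2)) =
          4 * (Φ (α * w1 + β * w2) (γ * w1 + δ * w2) a -
            Φ (α * v1 + β * v2) (γ * v1 + δ * v2) a) := by
        rw [m1, m2]
        push_cast at q3 q4
        linear_combination q3 - q4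
      have m4 := congrArg (fun z : ℤ_[p] => (z : ℚ_[p])) m3
      rw [PadicInt.coe_sub, PadicInt.coe_mul, PadicInt.coe_intCast, q2, q1, PadicInt.coe_mul, q5]
        at m4
      have h4 : ((4 : ℤ_[p]) : ℚ_[p]) = 4 := map_ofNat (PadicInt.Coe.ringHom (p := p)) 4
      rw [hγ2]
      push_cast at m4 ⊢
      rw [h4] at m4
      linear_combination -m4)
    intro α β γ δ
    have := hz α β γ δ
    linear_combination this
  -- step (4)
  have step4 : ∀ v1 v2 w1 w2 : ℤ, (v1 ≠ 0 ∨ v2 ≠ 0) → (w1 ≠ 0 ∨ w2 ≠ 0) →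
      Φ w1 w2 a = Φ v1 v2 a := by
    intro v1 v2 w1 w2 hv hw
    have hv' := u_ne' hp0 hv
    have hw' := u_ne' hp0 hw
    have q1 := step3 v1 v2 w1 w2 hv hw 1 0 0 1
    have q2 := step3 v1 v2 w1 w2 hv hw (-0) (-1) 1 0
    have q3 := step2 v1 v2 w1 w2 hv hw 1 0 0 1
    obtain ⟨s1, s2⟩ := hF (p * v1) v2 (p * w1) w2 hv' hw'
    obtain ⟨_, _, _, _, t5⟩ := hT p hpf a _ s1
    have q4 := t5 (p : ℚ_[p]) ((p : ℚ_[p])⁻¹) 0 (-1) 1 0
    rw [mul_inv_cancel₀ hpQ, one_pow, one_mul] at q4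
    have q5 := step2 (p * v1) v2 (p * w1) w2 hv' hw' 1 0 0 1
    have q6 := E2 v1 v2 w1 w2 1 0 0 1
    rw [ha'] at q6
    have q7 := E3 v1 v2 w1 w2
    have e1 : F (p * v1) v2 (p * w1) w2 1 (p * 0) ((p : ℚ_[p])⁻¹ * 0) 1 =
        F (p * v1) v2 (p * w1) w2 1 0 0 1 := by rw [mul_zero, mul_zero]
    have e2 : F (p * v1) v2 (p * w1) w2 (-0) (p * -1) ((p : ℚ_[p])⁻¹ * 1) 0 =
        F (p * v1) v2 (p * w1) w2 (p * 0) (p * -1) ((p : ℚ_[p])⁻¹ * 1) ((p : ℚ_[p])⁻¹ * 0) := by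
      rw [mul_zero, mul_zero, neg_zero]
    have e3 : F (p * v1) v2 (p * w1) w2 0 (-1) 1 0 = F (p * v1) v2 (p * w1) w2 (-0) (-1) 1 0 := by
      rw [neg_zero]
    have q8 : (8 : ℚ_[p]) * EGf a Φ v1 v2 w1 w2 1 0 0 1 = 0 := by
      rw [e1] at q1
      rw [e2, q4, e3, q5, q3, q6] at q2
      linear_combination q1 - ((η : ℤ) : ℚ_[p]) * q2 - (4 * EGf a Φ v1 v2 w1 w2 1 0 0 1 +
        ((c : ℤ) : ℚ_[p]) * F (p * v1) v2 (p * w1) w2 1 0 0 1 - F v1 v2 w1 w2 1 0 0 1) * hηη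
    have q9 : EGf a Φ v1 v2 w1 w2 1 0 0 1 = 0 := by
      rcases mul_eq_zero.1 q8 with h | h
      · norm_num at h
      · exact h
    rw [q7] at q9
    have q10 : Φ w1 w2 a - Φ v1 v2 a = 0 := PadicInt.ext q9
    exact sub_eq_zero.1 q10
  refine ⟨Φ 1 0 a, fun x y hxy => ?_⟩
  simp only [cp, Pi.zero_apply, zero_add]
  exact step4 1 0 x y (Or.inl one_ne_zero) hxy

end Pool.Agent.Helper9.TG
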